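import Mathlib

/-!
# `{45123, 45213}` and `{12345, 12354}` are Wilf-equivalent

The proof is a chain of five equalities.  Three are symmetries (reverse, reverse-complement and the
inverse followed by reverse-complement).  The other two are cases of the theorem `equal`: read a
permutation from left to right and call a value `c` good at the time `j` if some fixed configuration
occurs above `c` before `j`.  If the good values at the time `j + 1` depend only on the good values
and on the used values which are not good at the time `j`, then the following two conditions are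
satisfied by equally many permutations of `n` letters:

* (1) if the value at the time `j` is good, then fewer than `k` smaller values come later;
* (2) fewer than `k` good values which are larger than the value at the time `j` come later.

(At each step the entry can be placed in one of the `min k a` smallest, respectively the `min k a`
largest, of the `a` unused good values, and the further choices do not depend on which one it is.)
-/

open Finset Equiv

namespace Pool.Agent.Results.MP_b2be16_co.WilfEquivalence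

/-- The permutation `π` of `0, …, n - 1` contains the pattern `s` (a word of `k` numbers): there are
`i 0 < … < i (k - 1)` such that `π (i a) < π (i b)` if and only if `s a < s b`, for all `a`, `b`. -/
def Contains {n k : ℕ} (π : Perm (Fin n)) (s : Fin k → ℕ) : Prop :=
  ∃ i : Fin k → Fin n, StrictMono i ∧ ∀ a b, π (i a) < π (i b) ↔ s a < s b

open Classical in
/-- The set of the permutations of `0, …, n - 1` which contain none of the patterns in `B`. -/
noncomputable def Av (n : ℕ) {k : ℕ} (B : Set (Fin k → ℕ)) : Finset (Perm (Fin n)) :=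
  univ.filter fun π => ∀ s ∈ B, ¬ Contains π s

/-! ### Counting elements by their rank -/


lemma rank_lt {α : Type*} [LinearOrder α] (k : ℕ) (S : Finset α) :
    (S.filter fun c => (S.filter fun x => x < c).card < k).card = min k S.card := by
  induction S using Finset.induction_on_max with
  | empty => simp
  | insert a s ha ih =>
    have hna : a ∉ s := fun h => lt_irrefl a (ha a h)
    have h1 : (insert a s).filter (fun x => x < a) = s := by
      ext x
      simp only [mem_filter, mem_insert]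
      constructor
      · rintro ⟨rfl | h, h'⟩
        · exact absurd h' (lt_irrefl _)
        · exact h
      · intro h
        exact ⟨Or.inr h, ha x h⟩
    have h2 : ∀ c ∈ s, (insert a s).filter (fun x => x < c) = s.filter (fun x => x < c) := by
      intro c hc
      rw [filter_insert, if_neg (not_lt.2 (ha c hc).le)]
    rw [filter_insert, h1]
    have h3 : s.filter (fun c => ((insert a s).filter fun x => x < c).card < k) =
        s.filter (fun c => (s.filter fun x => x < c).card < k) := by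
      apply filter_congr
      intro c hc
      rw [h2 c hc]
    rw [h3, card_insert_of_notMem hna]
    split_ifs with h
    · rw [card_insert_of_notMem (fun hm => hna (mem_filter.1 hm).1), ih]
      omega
    · rw [ih]
      omega

lemma rank_gt {α : Type*} [LinearOrder α] (k : ℕ) (S : Finset α) :
    (S.filter fun c => (S.filter fun x => c < x).card < k).card = min k S.card :=
  rank_lt (α := αᵒᵈ) k S

variable {n : ℕ}

/-- abstract structure -/
structure Good (G : Perm (Fin n) → ℕ → Fin n → Prop) : Prop where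
  zero : ∀ π ρ c, G π 0 c ↔ G ρ 0 c
  pre : ∀ (j : ℕ) (π ρ : Perm (Fin n)), (∀ i : Fin n, i.val < j → π i = ρ i) → ∀ c, G π j c ↔ G ρ j c
  anti : ∀ (π : Perm (Fin n)) j c c', c ≤ c' → G π j c' → G π j c
  mono : ∀ (π : Perm (Fin n)) j c, G π j c → G π (j + 1) c
  step : ∀ (j : ℕ) (hj : j < n) (π ρ : Perm (Fin n)), (∀ c, G π j c ↔ G ρ j c) →
    (∀ x, ¬ G π j x → (j ≤ (π.symm x).val ↔ j ≤ (ρ.symm x).val)) →
    ((π ⟨j, hj⟩ = ρ ⟨j, hj⟩ ∧ ¬ G π j (π ⟨j, hj⟩)) ∨ (G π j (π ⟨j, hj⟩) ∧ G ρ j (ρ ⟨j, hj⟩))) →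
    ∀ c, G π (j + 1) c → G ρ (j + 1) c

def Rel (G : Perm (Fin n) → ℕ → Fin n → Prop) (j : ℕ) (π ρ : Perm (Fin n)) : Prop :=
  (∀ c, G π j c ↔ G ρ j c) ∧ ∀ x, ¬ G π j x → (j ≤ (π.symm x).val ↔ j ≤ (ρ.symm x).val)

lemma Rel.symm {G : Perm (Fin n) → ℕ → Fin n → Prop} {j : ℕ} {π ρ : Perm (Fin n)}
    (h : Rel G j π ρ) : Rel G j ρ π :=
  ⟨fun c => (h.1 c).symm, fun x hx => (h.2 x (fun h' => hx ((h.1 x).1 h'))).symm⟩

lemma Rel.step {G : Perm (Fin n) → ℕ → Fin n → Prop} (hG : Good G) {j : ℕ} (hj : j < n)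
    {π ρ : Perm (Fin n)} (h : Rel G j π ρ)
    (hc : (π ⟨j, hj⟩ = ρ ⟨j, hj⟩ ∧ ¬ G π j (π ⟨j, hj⟩)) ∨
      (G π j (π ⟨j, hj⟩) ∧ G ρ j (ρ ⟨j, hj⟩))) : Rel G (j + 1) π ρ := by
  have hc' : (ρ ⟨j, hj⟩ = π ⟨j, hj⟩ ∧ ¬ G ρ j (ρ ⟨j, hj⟩)) ∨
      (G ρ j (ρ ⟨j, hj⟩) ∧ G π j (π ⟨j, hj⟩)) := by
    rcases hc with ⟨h1, h2⟩ | ⟨h1, h2⟩
    · left
      refine ⟨h1.symm, fun h3 => h2 ?_⟩
      rw [h1]
      exact (h.1 _).2 h3
    · exact Or.inr ⟨h2, h1⟩
  refine ⟨fun c => ⟨hG.step j hj π ρ h.1 h.2 hc c, hG.step j hj ρ π h.symm.1 h.symm.2 hc' c⟩, ?_⟩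
  intro x hx
  have hx' : ¬ G π j x := fun h' => hx (hG.mono π j x h')
  have h2 := h.2 x hx'
  have e1 : (π.symm x).val = j ↔ x = π ⟨j, hj⟩ := by
    rw [← Equiv.symm_apply_eq]
    exact ⟨fun h => Fin.ext h, fun h => by rw [h]⟩
  have e2 : (ρ.symm x).val = j ↔ x = ρ ⟨j, hj⟩ := by
    rw [← Equiv.symm_apply_eq]
    exact ⟨fun h => Fin.ext h, fun h => by rw [h]⟩
  rcases hc with ⟨h3, h4⟩ | ⟨h3, h4⟩
  · rw [← h3] at e2
    by_cases hxx : x = π ⟨j, hj⟩
    · have := e1.2 hxx
      have := e2.2 hxx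
      omega
    · have : (π.symm x).val ≠ j := fun h => hxx (e1.1 h)
      have : (ρ.symm x).val ≠ j := fun h => hxx (e2.1 h)
      omega
  · have : (π.symm x).val ≠ j := fun h5 => hx' (by rw [e1.1 h5]; exact h3)
    have : (ρ.symm x).val ≠ j := fun h5 => hx' ((h.1 x).2 (by rw [e2.1 h5]; exact h4))
    omega

lemma mem_pre {j : ℕ} {π ρ : Perm (Fin n)} (h : ∀ i : Fin n, i.val < j → π i = ρ i) (x : Fin n) :
    j ≤ (π.symm x).val ↔ j ≤ (ρ.symm x).val := by
  have key : ∀ {π ρ : Perm (Fin n)}, (∀ i : Fin n, i.val < j → π i = ρ i) →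
      (π.symm x).val < j → (ρ.symm x).val < j := by
    intro π ρ h h1
    have h2 := h _ h1
    rw [Equiv.apply_symm_apply] at h2
    rw [Equiv.symm_apply_eq ρ |>.2 h2]
    exact h1
  have h1 := key h
  have h2 := key (fun i hi => (h i hi).symm)
  omega

lemma Rel.pre {G : Perm (Fin n) → ℕ → Fin n → Prop} (hG : Good G) {j : ℕ}
    {π ρ π' ρ' : Perm (Fin n)} (h : Rel G j π ρ) (h1 : ∀ i : Fin n, i.val < j → π i = π' i)
    (h2 : ∀ i : Fin n, i.val < j → ρ i = ρ' i) : Rel G j π' ρ' := by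
  refine ⟨fun c => ?_, fun x hx => ?_⟩
  · rw [← hG.pre j π π' h1 c, ← hG.pre j ρ ρ' h2 c]
    exact h.1 c
  · rw [← mem_pre h1, ← mem_pre h2]
    exact h.2 x (fun h' => hx ((hG.pre j π π' h1 x).1 h'))


open Classical in
/-- condition 1 at time `j` -/
def P1 (G : Perm (Fin n) → ℕ → Fin n → Prop) (k : ℕ) (π : Perm (Fin n)) (j : Fin n) : Prop :=
  G π j (π j) → (univ.filter fun i => j < i ∧ π i < π j).card < k

open Classical in
/-- condition 2 at time `j` -/
def P2 (G : Perm (Fin n) → ℕ → Fin n → Prop) (k : ℕ) (π : Perm (Fin n)) (j : Fin n) : Prop :=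
  (univ.filter fun i => j < i ∧ π j < π i ∧ G π j (π i)).card < k

open Classical in
/-- permutations which agree with `π0` before `j` and satisfy `P` from `j` on -/
noncomputable def ext (P : Perm (Fin n) → Fin n → Prop) (j : ℕ) (π0 : Perm (Fin n)) :
    Finset (Perm (Fin n)) :=
  univ.filter fun π => (∀ i : Fin n, i.val < j → π i = π0 i) ∧ ∀ i : Fin n, j ≤ i.val → P π i

/-- `π0` changed so that the value at `J` is `c` -/
def chg (π0 : Perm (Fin n)) (J c : Fin n) : Perm (Fin n) := (swap J (π0.symm c)).trans π0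

lemma chg_at (π0 : Perm (Fin n)) (J c : Fin n) : chg π0 J c J = c := by
  simp [chg]

lemma chg_lt (π0 : Perm (Fin n)) (J c : Fin n) (hc : J ≤ π0.symm c) (i : Fin n) (hi : i < J) :
    chg π0 J c i = π0 i := by
  unfold chg
  rw [Equiv.trans_apply, swap_apply_of_ne_of_ne hi.ne (hi.trans_le hc).ne]

open Classical in
lemma fiber (P : Perm (Fin n) → Fin n → Prop) {j : ℕ} (hj : j < n) (π0 : Perm (Fin n)) (c : Fin n)
    (hc : j ≤ (π0.symm c).val) (Q : Prop) [Decidable Q]
    (hQ : ∀ π : Perm (Fin n), (∀ i : Fin n, i.val < j → π i = π0 i) → π ⟨j, hj⟩ = c →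
      (P π ⟨j, hj⟩ ↔ Q)) :
    ((ext P j π0).filter fun π => π ⟨j, hj⟩ = c).card =
      if Q then (ext P (j + 1) (chg π0 ⟨j, hj⟩ c)).card else 0 := by
  split_ifs with h
  · congr 1
    ext π
    unfold ext
    simp only [mem_filter, mem_univ, true_and]
    constructor
    · rintro ⟨⟨h1, h2⟩, h3⟩
      refine ⟨fun i hi => ?_, fun i hi => h2 i (by omega)⟩
      rcases Nat.lt_or_ge i.val j with h4 | h4
      · rw [chg_lt π0 ⟨j, hj⟩ c hc i h4, h1 i h4]
      · have : i = ⟨j, hj⟩ := Fin.ext (by simp only; omega)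
        rw [this, chg_at, h3]
    · rintro ⟨h1, h2⟩
      have h4 : ∀ i : Fin n, i.val < j → π i = π0 i := fun i hi => by
        rw [h1 i (by omega), chg_lt π0 ⟨j, hj⟩ c hc i hi]
      have h5 : π ⟨j, hj⟩ = c := by
        rw [h1 _ (Nat.lt_succ_self j), chg_at]
      refine ⟨⟨h4, fun i hi => ?_⟩, h5⟩
      rcases Nat.lt_or_ge j i.val with h6 | h6
      · exact h2 i h6
      · have : i = ⟨j, hj⟩ := Fin.ext (by simp only; omega)
        rw [this]
        exact (hQ π h4 h5).2 h
  · rw [card_eq_zero, filter_eq_empty_iff]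
    intro π hπ h3
    unfold ext at hπ
    simp only [mem_filter, mem_univ, true_and] at hπ
    exact h ((hQ π hπ.1 h3).1 (hπ.2 ⟨j, hj⟩ le_rfl))

open Classical in
lemma ext_card (P : Perm (Fin n) → Fin n → Prop) {j : ℕ} (hj : j < n) (π0 : Perm (Fin n))
    (Q : Fin n → Prop) [DecidablePred Q]
    (hQ : ∀ c, j ≤ (π0.symm c).val → ∀ π : Perm (Fin n), (∀ i : Fin n, i.val < j → π i = π0 i) →
      π ⟨j, hj⟩ = c → (P π ⟨j, hj⟩ ↔ Q c)) :
    (ext P j π0).card = ∑ c ∈ (univ.filter fun c => j ≤ (π0.symm c).val).filter Q,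
      (ext P (j + 1) (chg π0 ⟨j, hj⟩ c)).card := by
  have hmaps : ∀ π ∈ ext P j π0, π ⟨j, hj⟩ ∈ (univ.filter fun c => j ≤ (π0.symm c).val) := by
    intro π hπ
    unfold ext at hπ
    simp only [mem_filter, mem_univ, true_and] at hπ ⊢
    rw [← mem_pre hπ.1, Equiv.symm_apply_apply]
  rw [card_eq_sum_card_fiberwise hmaps]
  conv_rhs => rw [sum_filter]
  apply sum_congr rfl
  intro c hc
  rw [mem_filter] at hc
  exact fiber P hj π0 c hc.2 (Q c) (hQ c hc.2)

lemma ext_top (P : Perm (Fin n) → Fin n → Prop) (π0 : Perm (Fin n)) : ext P n π0 = {π0} := by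
  classical
  ext π
  unfold ext
  simp only [mem_filter, mem_univ, true_and, mem_singleton]
  constructor
  · rintro ⟨h, -⟩
    exact Equiv.ext fun i => h i i.isLt
  · rintro rfl
    exact ⟨fun _ _ => rfl, fun i hi => absurd i.isLt (by omega)⟩

lemma main {G : Perm (Fin n) → ℕ → Fin n → Prop} (hG : Good G) (k : ℕ) (hk : 0 < k) :
    ∀ m j : ℕ, j + m = n → ∀ π0 ρ0 : Perm (Fin n), Rel G j π0 ρ0 →
      (ext (P1 G k) j π0).card = (ext (P2 G k) j ρ0).card := by
  classical
  intro m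
  induction m with
  | zero =>
    intro j hj π0 ρ0 _
    have : j = n := by omega
    subst this
    rw [ext_top, ext_top]
    simp
  | succ m ih =>
    intro j hjm π0 ρ0 hR
    have hj : j < n := by omega
    set J : Fin n := ⟨j, hj⟩ with hJ
    set C : Finset (Fin n) := univ.filter fun c => j ≤ (π0.symm c).val with hC
    set D : Finset (Fin n) := univ.filter fun c => j ≤ (ρ0.symm c).val with hD
    have memC : ∀ c, c ∈ C ↔ j ≤ (π0.symm c).val := fun c => by simp [hC]
    have memD : ∀ c, c ∈ D ↔ j ≤ (ρ0.symm c).val := fun c => by simp [hD]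
    have gt_iff : ∀ (π : Perm (Fin n)) (x : Fin n), x ≠ π J → (J < π.symm x ↔ j ≤ (π.symm x).val) := by
      intro π x hx
      have h1 : (π.symm x).val ≠ j := by
        intro h
        apply hx
        have : π.symm x = J := Fin.ext h
        rw [← this, Equiv.apply_symm_apply]
      rw [Fin.lt_def]
      simp only [hJ]
      omega
    -- the two conditions in terms of the value
    have hQ1 : ∀ c, j ≤ (π0.symm c).val → ∀ π : Perm (Fin n),
        (∀ i : Fin n, i.val < j → π i = π0 i) → π ⟨j, hj⟩ = c →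
        (P1 G k π ⟨j, hj⟩ ↔ (G π0 j c → (C.filter fun x => x < c).card < k)) := by
      intro c hc π hπ hπc
      have e : (univ.filter fun i => J < i ∧ π i < π J).card = (C.filter fun x => x < c).card := by
        apply Finset.card_equiv π
        intro i
        rw [mem_filter, mem_filter, memC, ← mem_pre hπ, Equiv.symm_apply_apply, ← hπc]
        simp only [mem_univ, true_and]
        constructor
        · rintro ⟨h1, h2⟩
          exact ⟨le_of_lt h1, h2⟩
        · rintro ⟨h1, h2⟩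
          refine ⟨?_, h2⟩
          have h3 := (gt_iff π (π i) h2.ne)
          rw [Equiv.symm_apply_apply] at h3
          exact h3.2 h1
      unfold P1
      rw [hπc, hG.pre j π π0 hπ c]
      rw [← hJ] at hπc
      rw [hπc] at e
      rw [← e]
    have hQ2 : ∀ c, j ≤ (ρ0.symm c).val → ∀ π : Perm (Fin n),
        (∀ i : Fin n, i.val < j → π i = ρ0 i) → π ⟨j, hj⟩ = c →
        (P2 G k π ⟨j, hj⟩ ↔ (D.filter fun x => c < x ∧ G ρ0 j x).card < k) := by
      intro c hc π hπ hπc
      have e : (univ.filter fun i => J < i ∧ π J < π i ∧ G π j (π i)).card =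
          (D.filter fun x => c < x ∧ G ρ0 j x).card := by
        apply Finset.card_equiv π
        intro i
        rw [mem_filter, mem_filter, memD, ← mem_pre hπ, Equiv.symm_apply_apply, ← hπc,
          ← hG.pre j π ρ0 hπ]
        simp only [mem_univ, true_and]
        constructor
        · rintro ⟨h1, h2⟩
          exact ⟨le_of_lt h1, h2⟩
        · rintro ⟨h1, h2⟩
          refine ⟨?_, h2⟩
          have h3 := (gt_iff π (π i) h2.1.ne')
          rw [Equiv.symm_apply_apply] at h3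
          exact h3.2 h1
      unfold P2
      rw [← e]
    set Q1 : Fin n → Prop := fun c => G π0 j c → (C.filter fun x => x < c).card < k with hQ1d
    set Q2 : Fin n → Prop := fun c => (D.filter fun x => c < x ∧ G ρ0 j x).card < k with hQ2d
    have E1 : (ext (P1 G k) j π0).card = ∑ c ∈ C.filter Q1,
        (ext (P1 G k) (j + 1) (chg π0 J c)).card := ext_card (P1 G k) hj π0 Q1 hQ1
    have E2 : (ext (P2 G k) j ρ0).card = ∑ c ∈ D.filter Q2,
        (ext (P2 G k) (j + 1) (chg ρ0 J c)).card := ext_card (P2 G k) hj ρ0 Q2 hQ2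
    rw [E1, E2]
    set Cg := C.filter (fun c => G π0 j c) with hCg
    set Dg := D.filter (fun c => G ρ0 j c) with hDg
    -- relation for changed permutations
    have hrel : ∀ c d, c ∈ C → d ∈ D → ((c = d ∧ ¬ G π0 j c) ∨ (G π0 j c ∧ G ρ0 j d)) →
        (ext (P1 G k) (j + 1) (chg π0 J c)).card = (ext (P2 G k) (j + 1) (chg ρ0 J d)).card := by
      intro c d hc hd hcd
      apply ih (j + 1) (by omega)
      have a1 : ∀ i : Fin n, i.val < j → π0 i = chg π0 J c i := fun i hi =>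
        (chg_lt π0 J c ((memC c).1 hc) i hi).symm
      have a2 : ∀ i : Fin n, i.val < j → ρ0 i = chg ρ0 J d i := fun i hi =>
        (chg_lt ρ0 J d ((memD d).1 hd) i hi).symm
      have hR' := hR.pre hG a1 a2
      apply hR'.step hG hj
      rw [← hJ, chg_at, chg_at]
      rcases hcd with ⟨h1, h2⟩ | ⟨h1, h2⟩
      · left
        exact ⟨h1, fun h3 => h2 ((hG.pre j _ _ a1 c).2 h3)⟩
      · right
        exact ⟨(hG.pre j _ _ a1 c).1 h1, (hG.pre j _ _ a2 d).1 h2⟩
    have hng : (C.filter Q1).filter (fun c => ¬ G π0 j c) =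
        (D.filter Q2).filter (fun c => ¬ G ρ0 j c) := by
      ext c
      simp only [mem_filter]
      have hgc := hR.1 c
      constructor
      · rintro ⟨⟨h1, -⟩, h3⟩
        refine ⟨⟨(memD c).2 ((hR.2 c h3).1 ((memC c).1 h1)), ?_⟩, fun h => h3 (hgc.2 h)⟩
        have : (D.filter fun x => c < x ∧ G ρ0 j x) = ∅ := by
          rw [filter_eq_empty_iff]
          rintro x - ⟨h4, h5⟩
          exact h3 (hgc.2 (hG.anti ρ0 j c x h4.le h5))
        simp only [hQ2d, this, card_empty]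
        exact hk
      · rintro ⟨⟨h1, -⟩, h3⟩
        have h3' : ¬ G π0 j c := fun h => h3 (hgc.1 h)
        exact ⟨⟨(memC c).2 ((hR.2 c h3').2 ((memD c).1 h1)), fun h => absurd h h3'⟩, h3'⟩
    have hg1 : (C.filter Q1).filter (fun c => G π0 j c) =
        Cg.filter fun c => (Cg.filter fun x => x < c).card < k := by
      ext c
      simp only [mem_filter, hCg]
      constructor
      · rintro ⟨⟨h1, h2⟩, h3⟩
        refine ⟨⟨h1, h3⟩, ?_⟩
        refine lt_of_le_of_lt (card_le_card ?_) (h2 h3)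
        intro x hx
        rw [mem_filter, mem_filter] at hx
        rw [mem_filter]
        exact ⟨hx.1.1, hx.2⟩
      · rintro ⟨⟨h1, h3⟩, h2⟩
        refine ⟨⟨h1, fun _ => ?_⟩, h3⟩
        refine lt_of_le_of_lt (card_le_card ?_) h2
        intro x hx
        rw [mem_filter] at hx
        rw [mem_filter, mem_filter]
        exact ⟨⟨hx.1, hG.anti π0 j x c hx.2.le h3⟩, hx.2⟩
    have hg2 : (D.filter Q2).filter (fun c => G ρ0 j c) =
        Dg.filter fun c => (Dg.filter fun x => c < x).card < k := by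
      ext c
      simp only [mem_filter, hDg]
      have : (D.filter fun x => c < x ∧ G ρ0 j x) =
          (D.filter fun c => G ρ0 j c).filter fun x => c < x := by
        ext x
        simp only [mem_filter]
        tauto
      simp only [hQ2d, this]
      tauto
    have hcard : Cg.card = Dg.card := by
      have h1 : C.card = D.card := by
        have a1 : C.card = (univ.filter fun i : Fin n => j ≤ i.val).card := by
          apply Finset.card_equiv π0.symm
          intro i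
          rw [memC]
          simp
        have a2 : D.card = (univ.filter fun i : Fin n => j ≤ i.val).card := by
          apply Finset.card_equiv ρ0.symm
          intro i
          rw [memD]
          simp
        rw [a1, a2]
      have h2 : C.filter (fun c => ¬ G π0 j c) = D.filter (fun c => ¬ G ρ0 j c) := by
        ext c
        simp only [mem_filter, memC, memD]
        have hgc := hR.1 c
        constructor
        · rintro ⟨h3, h4⟩
          exact ⟨(hR.2 c h4).1 h3, fun h => h4 (hgc.2 h)⟩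
        · rintro ⟨h3, h4⟩
          have h4' : ¬ G π0 j c := fun h => h4 (hgc.1 h)
          exact ⟨(hR.2 c h4').2 h3, h4'⟩
      have h3 := Finset.card_filter_add_card_filter_not (s := C) (fun c => G π0 j c)
      have h4 := Finset.card_filter_add_card_filter_not (s := D) (fun c => G ρ0 j c)
      rw [h2, ← hCg] at h3
      rw [← hDg] at h4
      omega
    rw [← Finset.sum_filter_add_sum_filter_not (C.filter Q1) (fun c => G π0 j c),
      ← Finset.sum_filter_add_sum_filter_not (D.filter Q2) (fun c => G ρ0 j c), hng, hg1, hg2]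
    congr 1
    · set A1 := Cg.filter fun c => (Cg.filter fun x => x < c).card < k with hA1
      set A2 := Dg.filter fun c => (Dg.filter fun x => c < x).card < k with hA2
      have hA : A1.card = A2.card := by
        rw [hA1, hA2, rank_lt, rank_gt, hcard]
      have hval : ∀ c ∈ A1, ∀ d ∈ A2,
          (ext (P1 G k) (j + 1) (chg π0 J c)).card = (ext (P2 G k) (j + 1) (chg ρ0 J d)).card := by
        intro c hc d hd
        rw [hA1, hCg, mem_filter, mem_filter] at hc
        rw [hA2, hDg, mem_filter, mem_filter] at hd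
        exact hrel c d hc.1.1 hd.1.1 (Or.inr ⟨hc.1.2, hd.1.2⟩)
      rcases A1.eq_empty_or_nonempty with h0 | ⟨c0, hc0⟩
      · have h0' : A2 = ∅ := by
          rw [← card_eq_zero, ← hA, h0, card_empty]
        rw [h0, h0', sum_empty, sum_empty]
      · have hne : A2.Nonempty := by
          rw [← card_pos, ← hA]
          exact card_pos.2 ⟨c0, hc0⟩
        obtain ⟨d0, hd0⟩ := hne
        rw [sum_congr rfl (fun c hc => hval c hc d0 hd0),
          sum_congr rfl (fun d hd => (hval c0 hc0 d hd).symm), sum_const, sum_const, hA,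
          hval c0 hc0 d0 hd0]
    · apply sum_congr rfl
      intro c hc
      rw [← hng] at hc
      have hc' := hc
      rw [hng] at hc'
      rw [mem_filter, mem_filter] at hc hc'
      exact hrel c c hc.1.1 hc'.1.1 (Or.inl ⟨rfl, hc.2⟩)

open Classical in
/-- the two conditions are satisfied by equally many permutations -/
theorem equal {G : Perm (Fin n) → ℕ → Fin n → Prop} (hG : Good G) (k : ℕ) (hk : 0 < k) :
    (univ.filter fun π : Perm (Fin n) => ∀ j, P1 G k π j).card =
      (univ.filter fun π : Perm (Fin n) => ∀ j, P2 G k π j).card := by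
  have h := main hG k hk n 0 (by omega) 1 1 ⟨fun _ => Iff.rfl, fun _ _ => Iff.rfl⟩
  unfold ext at h
  simpa using h

/-! ### The two instances -/

/-- an ascent `π a < π b` above `c` before the time `j` -/
def GA (π : Perm (Fin n)) (j : ℕ) (c : Fin n) : Prop :=
  ∃ a b : Fin n, a < b ∧ b.val < j ∧ c < π a ∧ π a < π b

/-- a value `π e` above `c` with two larger values before it, before the time `j` -/
def GB (π : Perm (Fin n)) (j : ℕ) (c : Fin n) : Prop :=
  ∃ a b e : Fin n, a < b ∧ b < e ∧ e.val < j ∧ c < π e ∧ π e < π a ∧ π e < π b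

lemma good_GA : Good (GA (n := n)) where
  zero := by
    intro π ρ c
    constructor <;> rintro ⟨a, b, -, h, -⟩ <;> omega
  pre := by
    have key : ∀ (j : ℕ) (π ρ : Perm (Fin n)), (∀ i : Fin n, i.val < j → π i = ρ i) →
        ∀ c, GA π j c → GA ρ j c := by
      rintro j π ρ h c ⟨a, b, h1, h2, h3, h4⟩
      have h1' : a.val < j := lt_trans h1 h2
      exact ⟨a, b, h1, h2, by rw [← h a h1']; exact h3, by rw [← h a h1', ← h b h2]; exact h4⟩
    intro j π ρ h c
    exact ⟨key j π ρ h c, key j ρ π (fun i hi => (h i hi).symm) c⟩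
  anti := by
    rintro π j c c' hc ⟨a, b, h1, h2, h3, h4⟩
    exact ⟨a, b, h1, h2, hc.trans_lt h3, h4⟩
  mono := by
    rintro π j c ⟨a, b, h1, h2, h3, h4⟩
    exact ⟨a, b, h1, by omega, h3, h4⟩
  step := by
    rintro j hj π ρ hG hm hc c ⟨a, b, h1, h2, h3, h4⟩
    have mono : GA ρ j c → GA ρ (j + 1) c := by
      rintro ⟨a, b, h1, h2, h3, h4⟩
      exact ⟨a, b, h1, by omega, h3, h4⟩
    by_cases hGc : GA π j c
    · exact mono ((hG c).1 hGc)
    have hb : b = ⟨j, hj⟩ := by
      by_contra hne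
      apply hGc
      have : b.val ≠ j := fun h => hne (Fin.ext h)
      exact ⟨a, b, h1, by omega, h3, h4⟩
    subst hb
    rcases hc with ⟨h5, h6⟩ | ⟨⟨a', b', k1, k2, k3, k4⟩, -⟩
    · have h7 : ¬ GA π j (π a) := by
        rintro ⟨a', b', k1, k2, k3, k4⟩
        exact hGc ⟨a', b', k1, k2, h3.trans k3, k4⟩
      have h8 := hm _ h7
      rw [Equiv.symm_apply_apply] at h8
      have h9 : a.val < j := h1
      have h10 : (ρ.symm (π a)).val < j := by omega
      refine ⟨ρ.symm (π a), ⟨j, hj⟩, h10, Nat.lt_succ_self j, ?_, ?_⟩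
      · rw [Equiv.apply_symm_apply]
        exact h3
      · rw [Equiv.apply_symm_apply, ← h5]
        exact h4
    · exact absurd ⟨a', b', k1, k2, (h3.trans h4).trans k3, k4⟩ hGc

lemma good_GB : Good (GB (n := n)) where
  zero := by
    intro π ρ c
    constructor <;> rintro ⟨a, b, e, -, -, h, -⟩ <;> omega
  pre := by
    have key : ∀ (j : ℕ) (π ρ : Perm (Fin n)), (∀ i : Fin n, i.val < j → π i = ρ i) →
        ∀ c, GB π j c → GB ρ j c := by
      rintro j π ρ h c ⟨a, b, e, h1, h2, h3, h4, h5, h6⟩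
      have hb : b.val < j := lt_trans h2 h3
      have ha : a.val < j := lt_trans h1 hb
      exact ⟨a, b, e, h1, h2, h3, by rw [← h e h3]; exact h4,
        by rw [← h a ha, ← h e h3]; exact h5, by rw [← h b hb, ← h e h3]; exact h6⟩
    intro j π ρ h c
    exact ⟨key j π ρ h c, key j ρ π (fun i hi => (h i hi).symm) c⟩
  anti := by
    rintro π j c c' hc ⟨a, b, e, h1, h2, h3, h4, h5, h6⟩
    exact ⟨a, b, e, h1, h2, h3, hc.trans_lt h4, h5, h6⟩
  mono := by
    rintro π j c ⟨a, b, e, h1, h2, h3, h4, h5, h6⟩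
    exact ⟨a, b, e, h1, h2, by omega, h4, h5, h6⟩
  step := by
    rintro j hj π ρ hG hm hc c ⟨a, b, e, h1, h2, h3, h4, h5, h6⟩
    have mono : GB ρ j c → GB ρ (j + 1) c := by
      rintro ⟨a, b, e, h1, h2, h3, h4, h5, h6⟩
      exact ⟨a, b, e, h1, h2, by omega, h4, h5, h6⟩
    by_cases hGc : GB π j c
    · exact mono ((hG c).1 hGc)
    have he : e = ⟨j, hj⟩ := by
      by_contra hne
      apply hGc
      have : e.val ≠ j := fun h => hne (Fin.ext h)
      exact ⟨a, b, e, h1, h2, by omega, h4, h5, h6⟩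
    subst he
    rcases hc with ⟨h7, h8⟩ | ⟨⟨a', b', e', k1, k2, k3, k4, k5, k6⟩, -⟩
    · have hbig : ∀ x : Fin n, x.val < j → π ⟨j, hj⟩ < π x → (ρ.symm (π x)).val < j := by
        intro x hx hx2
        have h9 : ¬ GB π j (π x) := by
          rintro ⟨a', b', e', k1, k2, k3, k4, k5, k6⟩
          exact h8 ⟨a', b', e', k1, k2, k3, hx2.trans k4, k5, k6⟩
        have h10 := hm _ h9
        rw [Equiv.symm_apply_apply] at h10
        omega
      have hb : b.val < j := h2
      have ha : a.val < j := lt_trans h1 hb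
      have ha' := hbig a ha h5
      have hb' := hbig b hb h6
      have hne : ρ.symm (π a) ≠ ρ.symm (π b) := by
        intro h
        exact h1.ne (π.injective (ρ.symm.injective h))
      rw [h7] at h4 h5 h6
      rcases lt_or_gt_of_ne hne with h | h
      · exact ⟨ρ.symm (π a), ρ.symm (π b), ⟨j, hj⟩, h, hb', Nat.lt_succ_self j, h4,
          by rw [Equiv.apply_symm_apply]; exact h5, by rw [Equiv.apply_symm_apply]; exact h6⟩
      · exact ⟨ρ.symm (π b), ρ.symm (π a), ⟨j, hj⟩, h, ha', Nat.lt_succ_self j, h4,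
          by rw [Equiv.apply_symm_apply]; exact h6, by rw [Equiv.apply_symm_apply]; exact h5⟩
    · exact absurd ⟨a', b', e', k1, k2, k3, h4.trans k4, k5, k6⟩ hGc

/-! ### Patterns of length five -/

/-- `π` has an occurrence whose entries, ordered by value, are at the places `r 0, …, r 4` -/
def Occ (r : Fin 5 → Fin 5) (π : Perm (Fin n)) : Prop :=
  ∃ f : Fin 5 → Fin n, StrictMono f ∧ StrictMono fun a => π (f (r a))

lemma strictMono5 {α : Type*} [Preorder α] (f : Fin 5 → α) :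
    StrictMono f ↔ f 0 < f 1 ∧ f 1 < f 2 ∧ f 2 < f 3 ∧ f 3 < f 4 := by
  rw [Fin.strictMono_iff_lt_succ]
  constructor
  · intro h
    exact ⟨h 0, h 1, h 2, h 3⟩
  · rintro ⟨h0, h1, h2, h3⟩ i
    fin_cases i
    · exact h0
    · exact h1
    · exact h2
    · exact h3

lemma occ_iff (r : Fin 5 → Fin 5) (π : Perm (Fin n)) :
    Occ r π ↔ ∃ a b c d e : Fin n, (a < b ∧ b < c ∧ c < d ∧ d < e) ∧
      π (![a, b, c, d, e] (r 0)) < π (![a, b, c, d, e] (r 1)) ∧
      π (![a, b, c, d, e] (r 1)) < π (![a, b, c, d, e] (r 2)) ∧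
      π (![a, b, c, d, e] (r 2)) < π (![a, b, c, d, e] (r 3)) ∧
      π (![a, b, c, d, e] (r 3)) < π (![a, b, c, d, e] (r 4)) := by
  constructor
  · rintro ⟨f, h1, h2⟩
    rw [strictMono5] at h1 h2
    have e : f = ![f 0, f 1, f 2, f 3, f 4] := by
      funext i
      fin_cases i <;> rfl
    refine ⟨f 0, f 1, f 2, f 3, f 4, h1, ?_⟩
    rw [← e]
    exact h2
  · rintro ⟨a, b, c, d, e, h1, h2⟩
    exact ⟨![a, b, c, d, e], (strictMono5 _).2 h1, (strictMono5 _).2 h2⟩

lemma occ45312 (π : Perm (Fin n)) : Occ ![3, 4, 2, 0, 1] π ↔ ∃ a b c d e : Fin n,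
    (a < b ∧ b < c ∧ c < d ∧ d < e) ∧ π d < π e ∧ π e < π c ∧ π c < π a ∧ π a < π b :=
  occ_iff _ π
lemma occ45321 (π : Perm (Fin n)) : Occ ![4, 3, 2, 0, 1] π ↔ ∃ a b c d e : Fin n,
    (a < b ∧ b < c ∧ c < d ∧ d < e) ∧ π e < π d ∧ π d < π c ∧ π c < π a ∧ π a < π b :=
  occ_iff _ π
lemma occ45123 (π : Perm (Fin n)) : Occ ![2, 3, 4, 0, 1] π ↔ ∃ a b c d e : Fin n,
    (a < b ∧ b < c ∧ c < d ∧ d < e) ∧ π c < π d ∧ π d < π e ∧ π e < π a ∧ π a < π b :=
  occ_iff _ π
lemma occ45132 (π : Perm (Fin n)) : Occ ![2, 4, 3, 0, 1] π ↔ ∃ a b c d e : Fin n,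
    (a < b ∧ b < c ∧ c < d ∧ d < e) ∧ π c < π e ∧ π e < π d ∧ π d < π a ∧ π a < π b :=
  occ_iff _ π
lemma occ54321 (π : Perm (Fin n)) : Occ ![4, 3, 2, 1, 0] π ↔ ∃ a b c d e : Fin n,
    (a < b ∧ b < c ∧ c < d ∧ d < e) ∧ π e < π d ∧ π d < π c ∧ π c < π b ∧ π b < π a :=
  occ_iff _ π
lemma occ54312 (π : Perm (Fin n)) : Occ ![3, 4, 2, 1, 0] π ↔ ∃ a b c d e : Fin n,
    (a < b ∧ b < c ∧ c < d ∧ d < e) ∧ π d < π e ∧ π e < π c ∧ π c < π b ∧ π b < π a :=
  occ_iff _ π

lemma A1 (π : Perm (Fin n)) : (∀ j, P1 GA 2 π j) ↔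
    ¬ Occ ![3, 4, 2, 0, 1] π ∧ ¬ Occ ![4, 3, 2, 0, 1] π := by
  classical
  rw [occ45312, occ45321]
  constructor
  · intro h
    constructor
    · rintro ⟨a, b, c, d, e, ⟨h1, h2, h3, h4⟩, h5, h6, h7, h8⟩
      have h9 := h c ⟨a, b, h1, h2, h7, h8⟩
      have h10 := Finset.card_le_one.1 (Nat.lt_succ_iff.1 h9) d
        (by simpa using ⟨h3, h5.trans h6⟩) e (by simpa using ⟨h3.trans h4, h6⟩)
      exact h4.ne h10
    · rintro ⟨a, b, c, d, e, ⟨h1, h2, h3, h4⟩, h5, h6, h7, h8⟩
      have h9 := h c ⟨a, b, h1, h2, h7, h8⟩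
      have h10 := Finset.card_le_one.1 (Nat.lt_succ_iff.1 h9) d
        (by simpa using ⟨h3, h6⟩) e (by simpa using ⟨h3.trans h4, h5.trans h6⟩)
      exact h4.ne h10
  · rintro ⟨hA, hB⟩ j ⟨a, b, h1, h2, h3, h4⟩
    apply Nat.lt_succ_iff.2
    rw [Finset.card_le_one]
    have key : ∀ i i' : Fin n, j < i → π i < π j → j < i' → π i' < π j → ¬ i < i' := by
      intro i i' k1 k2 k3 k4 k5
      rcases lt_trichotomy (π i) (π i') with h | h | h
      · exact hA ⟨a, b, j, i, i', ⟨h1, h2, k1, k5⟩, h, k4, h3, h4⟩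
      · exact k5.ne (π.injective h)
      · exact hB ⟨a, b, j, i, i', ⟨h1, h2, k1, k5⟩, h, k2, h3, h4⟩
    intro i hi i' hi'
    simp only [mem_filter, mem_univ, true_and] at hi hi'
    exact le_antisymm (not_lt.1 (key i' i hi'.1 hi'.2 hi.1 hi.2))
      (not_lt.1 (key i i' hi.1 hi.2 hi'.1 hi'.2))

lemma A2 (π : Perm (Fin n)) : (∀ j, P2 GA 2 π j) ↔
    ¬ Occ ![2, 3, 4, 0, 1] π ∧ ¬ Occ ![2, 4, 3, 0, 1] π := by
  classical
  rw [occ45123, occ45132]
  constructor
  · intro h
    constructor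
    · rintro ⟨a, b, c, d, e, ⟨h1, h2, h3, h4⟩, h5, h6, h7, h8⟩
      have h10 := Finset.card_le_one.1 (Nat.lt_succ_iff.1 (h c)) d
        (by simpa using ⟨h3, h5, a, b, h1, h2, h6.trans h7, h8⟩) e
        (by simpa using ⟨h3.trans h4, h5.trans h6, a, b, h1, h2, h7, h8⟩)
      exact h4.ne h10
    · rintro ⟨a, b, c, d, e, ⟨h1, h2, h3, h4⟩, h5, h6, h7, h8⟩
      have h10 := Finset.card_le_one.1 (Nat.lt_succ_iff.1 (h c)) d
        (by simpa using ⟨h3, h5.trans h6, a, b, h1, h2, h7, h8⟩) e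
        (by simpa using ⟨h3.trans h4, h5, a, b, h1, h2, h6.trans h7, h8⟩)
      exact h4.ne h10
  · rintro ⟨hA, hB⟩ j
    apply Nat.lt_succ_iff.2
    rw [Finset.card_le_one]
    have key : ∀ i i' : Fin n, j < i → π j < π i → GA π j (π i) → j < i' → π j < π i' →
        GA π j (π i') → ¬ i < i' := by
      rintro i i' k1 k2 ⟨a, b, m1, m2, m3, m4⟩ k3 k4 ⟨a', b', m1', m2', m3', m4'⟩ k5
      rcases lt_trichotomy (π i) (π i') with h | h | h
      · exact hA ⟨a', b', j, i, i', ⟨m1', m2', k1, k5⟩, k2, h, m3', m4'⟩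
      · exact k5.ne (π.injective h)
      · exact hB ⟨a, b, j, i, i', ⟨m1, m2, k1, k5⟩, k4, h, m3, m4⟩
    intro i hi i' hi'
    simp only [mem_filter, mem_univ, true_and] at hi hi'
    exact le_antisymm (not_lt.1 (key i' i hi'.1 hi'.2.1 hi'.2.2 hi.1 hi.2.1 hi.2.2))
      (not_lt.1 (key i i' hi.1 hi.2.1 hi.2.2 hi'.1 hi'.2.1 hi'.2.2))

lemma B1 (π : Perm (Fin n)) : (∀ j, P1 GB 1 π j) ↔
    ¬ Occ ![4, 3, 2, 0, 1] π ∧ ¬ Occ ![4, 3, 2, 1, 0] π := by
  classical
  rw [occ45321, occ54321]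
  constructor
  · intro h
    constructor
    · rintro ⟨a, b, c, d, e, ⟨h1, h2, h3, h4⟩, h5, h6, h7, h8⟩
      have h9 := h d ⟨a, b, c, h1, h2, h3, h6, h7, h7.trans h8⟩
      rw [Nat.lt_one_iff, card_eq_zero, filter_eq_empty_iff] at h9
      exact h9 (mem_univ e) ⟨h4, h5⟩
    · rintro ⟨a, b, c, d, e, ⟨h1, h2, h3, h4⟩, h5, h6, h7, h8⟩
      have h9 := h d ⟨a, b, c, h1, h2, h3, h6, h7.trans h8, h7⟩
      rw [Nat.lt_one_iff, card_eq_zero, filter_eq_empty_iff] at h9
      exact h9 (mem_univ e) ⟨h4, h5⟩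
  · rintro ⟨hA, hB⟩ j ⟨a, b, e, h1, h2, h3, h4, h5, h6⟩
    rw [Nat.lt_one_iff, card_eq_zero, filter_eq_empty_iff]
    rintro i - ⟨h7, h8⟩
    rcases lt_trichotomy (π a) (π b) with h | h | h
    · exact hA ⟨a, b, e, j, i, ⟨h1, h2, h3, h7⟩, h8, h4, h5, h⟩
    · exact h1.ne (π.injective h)
    · exact hB ⟨a, b, e, j, i, ⟨h1, h2, h3, h7⟩, h8, h4, h6, h⟩

lemma B2 (π : Perm (Fin n)) : (∀ j, P2 GB 1 π j) ↔
    ¬ Occ ![3, 4, 2, 0, 1] π ∧ ¬ Occ ![3, 4, 2, 1, 0] π := by
  classical
  rw [occ45312, occ54312]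
  constructor
  · intro h
    constructor
    · rintro ⟨a, b, c, d, e, ⟨h1, h2, h3, h4⟩, h5, h6, h7, h8⟩
      have h9 := h d
      unfold P2 at h9
      rw [Nat.lt_one_iff, card_eq_zero, filter_eq_empty_iff] at h9
      exact h9 (mem_univ e) ⟨h4, h5, a, b, c, h1, h2, h3, h6, h7, h7.trans h8⟩
    · rintro ⟨a, b, c, d, e, ⟨h1, h2, h3, h4⟩, h5, h6, h7, h8⟩
      have h9 := h d
      unfold P2 at h9
      rw [Nat.lt_one_iff, card_eq_zero, filter_eq_empty_iff] at h9
      exact h9 (mem_univ e) ⟨h4, h5, a, b, c, h1, h2, h3, h6, h7.trans h8, h7⟩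
  · rintro ⟨hA, hB⟩ j
    unfold P2
    rw [Nat.lt_one_iff, card_eq_zero, filter_eq_empty_iff]
    rintro i - ⟨h7, h8, a, b, e, h1, h2, h3, h4, h5, h6⟩
    rcases lt_trichotomy (π a) (π b) with h | h | h
    · exact hA ⟨a, b, e, j, i, ⟨h1, h2, h3, h7⟩, h8, h4, h5, h⟩
    · exact h1.ne (π.injective h)
    · exact hB ⟨a, b, e, j, i, ⟨h1, h2, h3, h7⟩, h8, h4, h6, h⟩

/-! ### Symmetries -/

/-- reverse-complement of the inverse -/
def S1 (π : Perm (Fin n)) : Perm (Fin n) := (Fin.revPerm.trans π.symm).trans Fin.revPerm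
/-- reverse-complement -/
def S2 (π : Perm (Fin n)) : Perm (Fin n) := (Fin.revPerm.trans π).trans Fin.revPerm
/-- reverse -/
def S3 (π : Perm (Fin n)) : Perm (Fin n) := Fin.revPerm.trans π

lemma S1_invol : Function.Involutive (S1 (n := n)) := by
  intro π
  ext i
  simp [S1]

lemma S2_invol : Function.Involutive (S2 (n := n)) := by
  intro π
  ext i
  simp [S2]

lemma S3_invol : Function.Involutive (S3 (n := n)) := by
  intro π
  ext i
  simp [S3]

lemma occ_S1 {r r' : Fin 5 → Fin 5} (h : ∀ x, r (Fin.rev (r' x)) = Fin.rev x) (π : Perm (Fin n))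
    (ho : Occ r π) : Occ r' (S1 π) := by
  obtain ⟨f, h1, h2⟩ := ho
  refine ⟨fun a => Fin.rev (π (f (r (Fin.rev a)))), fun a b hab => ?_, fun a b hab => ?_⟩
  · exact Fin.rev_lt_rev.2 (h2 (Fin.rev_lt_rev.2 hab))
  · simp only [S1, Equiv.trans_apply, Fin.revPerm_apply, Fin.rev_rev, Equiv.symm_apply_apply, h]
    exact Fin.rev_lt_rev.2 (h1 (Fin.rev_lt_rev.2 hab))

lemma occ_S2 {r r' : Fin 5 → Fin 5} (h : ∀ x, Fin.rev (r' x) = r (Fin.rev x)) (π : Perm (Fin n))
    (ho : Occ r π) : Occ r' (S2 π) := by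
  obtain ⟨f, h1, h2⟩ := ho
  refine ⟨fun a => Fin.rev (f (Fin.rev a)), fun a b hab => ?_, fun a b hab => ?_⟩
  · exact Fin.rev_lt_rev.2 (h1 (Fin.rev_lt_rev.2 hab))
  · simp only [S2, Equiv.trans_apply, Fin.revPerm_apply, Fin.rev_rev, h]
    exact Fin.rev_lt_rev.2 (h2 (Fin.rev_lt_rev.2 hab))

lemma occ_S3 {r r' : Fin 5 → Fin 5} (h : ∀ x, Fin.rev (r' x) = r x) (π : Perm (Fin n))
    (ho : Occ r π) : Occ r' (S3 π) := by
  obtain ⟨f, h1, h2⟩ := ho
  refine ⟨fun a => Fin.rev (f (Fin.rev a)), fun a b hab => ?_, fun a b hab => ?_⟩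
  · exact Fin.rev_lt_rev.2 (h1 (Fin.rev_lt_rev.2 hab))
  · simp only [S3, Equiv.trans_apply, Fin.revPerm_apply, Fin.rev_rev, h]
    exact h2 hab

open Classical in
/-- number of the permutations without occurrences of two patterns -/
noncomputable def num (n : ℕ) (r s : Fin 5 → Fin 5) : ℕ :=
  (univ.filter fun π : Perm (Fin n) => ¬ Occ r π ∧ ¬ Occ s π).card

lemma num_of_invol (S : Perm (Fin n) → Perm (Fin n)) (hS : Function.Involutive S)
    {r s r' s' : Fin 5 → Fin 5} (hr : ∀ π : Perm (Fin n), Occ r π ↔ Occ r' (S π))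
    (hs : ∀ π : Perm (Fin n), Occ s π ↔ Occ s' (S π)) : num n r s = num n r' s' := by
  classical
  unfold num
  apply Finset.card_equiv hS.toPerm
  intro π
  simp only [mem_filter, mem_univ, true_and, Function.Involutive.coe_toPerm]
  rw [hr, hs]

lemma occ_iff_S (S : Perm (Fin n) → Perm (Fin n)) (hS : Function.Involutive S)
    {r r' : Fin 5 → Fin 5} (h : ∀ π : Perm (Fin n), Occ r π → Occ r' (S π))
    (h' : ∀ π : Perm (Fin n), Occ r' π → Occ r (S π)) (π : Perm (Fin n)) :
    Occ r π ↔ Occ r' (S π) :=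
  ⟨h π, fun ho => by
    have := h' _ ho
    rwa [hS π] at this⟩

theorem chain (n : ℕ) : num n ![2, 3, 4, 0, 1] ![3, 2, 4, 0, 1] =
    num n ![0, 1, 2, 3, 4] ![0, 1, 2, 4, 3] := by
  classical
  have e1 : num n ![2, 3, 4, 0, 1] ![3, 2, 4, 0, 1] = num n ![2, 3, 4, 0, 1] ![2, 4, 3, 0, 1] :=
    num_of_invol S1 S1_invol
      (occ_iff_S S1 S1_invol (occ_S1 (by decide)) (occ_S1 (by decide)))
      (occ_iff_S S1 S1_invol (occ_S1 (by decide)) (occ_S1 (by decide)))
  have e2 : num n ![2, 3, 4, 0, 1] ![2, 4, 3, 0, 1] = num n ![3, 4, 2, 0, 1] ![4, 3, 2, 0, 1] := by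
    unfold num
    simp only [← A1, ← A2]
    exact (equal good_GA 2 (by norm_num)).symm
  have e3 : num n ![3, 4, 2, 0, 1] ![4, 3, 2, 0, 1] = num n ![3, 4, 2, 0, 1] ![3, 4, 2, 1, 0] :=
    num_of_invol S2 S2_invol
      (occ_iff_S S2 S2_invol (occ_S2 (by decide)) (occ_S2 (by decide)))
      (occ_iff_S S2 S2_invol (occ_S2 (by decide)) (occ_S2 (by decide)))
  have e4 : num n ![3, 4, 2, 0, 1] ![3, 4, 2, 1, 0] = num n ![4, 3, 2, 0, 1] ![4, 3, 2, 1, 0] := by
    unfold num
    simp only [← B1, ← B2]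
    exact (equal good_GB 1 (by norm_num)).symm
  have e5 : num n ![4, 3, 2, 1, 0] ![4, 3, 2, 0, 1] = num n ![0, 1, 2, 3, 4] ![0, 1, 2, 4, 3] :=
    num_of_invol S3 S3_invol
      (occ_iff_S S3 S3_invol (occ_S3 (by decide)) (occ_S3 (by decide)))
      (occ_iff_S S3 S3_invol (occ_S3 (by decide)) (occ_S3 (by decide)))
  have e6 : num n ![4, 3, 2, 0, 1] ![4, 3, 2, 1, 0] = num n ![4, 3, 2, 1, 0] ![4, 3, 2, 0, 1] := by
    unfold num
    simp only [and_comm]
  rw [e1, e2, e3, e4, e6, e5]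


/-! ### The theorem -/

lemma contains_iff (s : Fin 5 → ℕ) (r : Fin 5 → Fin 5) (hs : StrictMono fun a => s (r a))
    (hr : Function.Surjective r) (π : Perm (Fin n)) : Contains π s ↔ Occ r π := by
  constructor
  · rintro ⟨f, h1, h2⟩
    exact ⟨f, h1, fun a b hab => (h2 _ _).2 (hs hab)⟩
  · rintro ⟨f, h1, h2⟩
    refine ⟨f, h1, fun x y => ?_⟩
    obtain ⟨a, rfl⟩ := hr x
    obtain ⟨b, rfl⟩ := hr y
    rw [h2.lt_iff_lt (a := a) (b := b), hs.lt_iff_lt (a := a) (b := b)]

lemma card_Av (s t : Fin 5 → ℕ) (r q : Fin 5 → Fin 5) (hs : StrictMono fun a => s (r a))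
    (hr : Function.Surjective r) (ht : StrictMono fun a => t (q a))
    (hq : Function.Surjective q) (n : ℕ) : (Av n {s, t}).card = num n r q := by
  classical
  unfold Av num
  congr 1
  ext π
  simp only [mem_filter, mem_univ, true_and, Set.mem_insert_iff, Set.mem_singleton_iff,
    forall_eq_or_imp, forall_eq]
  rw [contains_iff s r hs hr, contains_iff t q ht hq]

/-- **`{45123, 45213}` and `{12345, 12354}` are Wilf-equivalent.** -/
theorem result (n : ℕ) : (Av n {![4, 5, 1, 2, 3], ![4, 5, 2, 1, 3]}).card =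
    (Av n {![1, 2, 3, 4, 5], ![1, 2, 3, 5, 4]}).card := by
  rw [card_Av ![4, 5, 1, 2, 3] ![4, 5, 2, 1, 3] ![2, 3, 4, 0, 1] ![3, 2, 4, 0, 1]
      (by rw [strictMono5]; decide) (by decide) (by rw [strictMono5]; decide) (by decide),
    card_Av ![1, 2, 3, 4, 5] ![1, 2, 3, 5, 4] ![0, 1, 2, 3, 4] ![0, 1, 2, 4, 3]
      (by rw [strictMono5]; decide) (by decide) (by rw [strictMono5]; decide) (by decide)]
  exact chain n

end Pool.Agent.Results.MP_b2be16_co.WilfEquivalence
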